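import Mathlib

namespace Pool.Agent.H.MP_fef6c2_gt
open Set Complex Topology Filter Metric
open scoped Real

theorem clog {E : Type*} [NormedAddCommGroup E] [NormedSpace ℝ E] {Q : Set E} (hQ : Convex ℝ Q)
    (hne : Q.Nonempty) {g : E → ℂ} (hg : ContinuousOn g Q) (h0 : ∀ x ∈ Q, g x ≠ 0) :
    ∃ L : E → ℂ, ContinuousOn L Q ∧ ∀ x ∈ Q, exp (L x) = g x := by
  classical
  have := hQ.contractibleSpace hne
  have := hQ.locallyPathConnectedSpace
  obtain ⟨x₀, hx₀⟩ := hne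
  obtain ⟨f, ⟨-, hf⟩, -⟩ := isCoveringMapOn_exp.existsUnique_continuousMap_lifts
    (A := Q) ⟨Q.domRestrict g, continuousOn_iff_continuous_domRestrict.mp hg⟩
    (a₀ := ⟨x₀, hx₀⟩) (exp_log (h0 x₀ hx₀)) (fun x ↦ h0 x x.2)
  obtain ⟨L, hL⟩ : ∃ L : E → ℂ, ∀ z : Q, L z = f z :=
    ⟨fun z ↦ if hz : z ∈ Q then f ⟨z, hz⟩ else 0, by simp⟩
  refine ⟨L, ?_, ?_⟩
  · rw [continuousOn_iff_continuous_domRestrict]
    convert! map_continuous f
    ext z
    exact hL z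
  · intro x hx
    lift x to Q using hx
    simpa [hL] using congr($hf x)

theorem const {E : Type*} [TopologicalSpace E] {Q : Set E} (hQ : IsPreconnected Q) {h : E → ℂ}
    (hh : ContinuousOn h Q) (h1 : ∀ x ∈ Q, exp (h x) = 1) {x y : E} (hx : x ∈ Q) (hy : y ∈ Q) :
    h x = h y :=
  isCoveringMap_exp.constOn_of_comp hQ hh
    (fun a ha b hb => Subtype.ext (by simp only [h1 a ha, h1 b hb])) hx hy

def Inc (γ : ℝ → ℂ) (c : ℂ) : Prop :=
  ∃ l : ℝ → ℂ, ContinuousOn l (Icc 0 (2 * π)) ∧ (∀ t ∈ Icc 0 (2 * π), exp (l t) = γ t) ∧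
    l (2 * π) - l 0 = c

theorem m0 : (0 : ℝ) ∈ Icc 0 (2 * π) := ⟨le_rfl, by positivity⟩
theorem m1 : (2 * π : ℝ) ∈ Icc 0 (2 * π) := ⟨by positivity, le_rfl⟩

theorem Inc.unique {γ : ℝ → ℂ} {c d : ℂ} (h : Inc γ c) (h' : Inc γ d) : c = d := by
  obtain ⟨l, hl, he, rfl⟩ := h
  obtain ⟨m, hm, hf, rfl⟩ := h'
  have := const (h := fun t => l t - m t) isPreconnected_Icc (hl.sub hm)
    (fun t ht => by rw [exp_sub, he t ht, ← hf t ht, div_self (exp_ne_zero _)]) m0 m1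
  linear_combination -this

theorem Inc.exists {γ : ℝ → ℂ} (hγ : ContinuousOn γ (Icc 0 (2 * π)))
    (h0 : ∀ t ∈ Icc 0 (2 * π), γ t ≠ 0) : ∃ c, Inc γ c := by
  obtain ⟨l, hl, he⟩ := clog (convex_Icc _ _) ⟨0, m0⟩ hγ h0
  exact ⟨_, l, hl, he, rfl⟩

theorem Inc.near {γ : ℝ → ℂ} (hγ : ContinuousOn γ (Icc 0 (2 * π))) (hp : γ (2 * π) = γ 0)
    {p c : ℂ} (h : Inc (fun t => γ t - p) c) :
    ∀ᶠ q in 𝓝 p, Inc (fun t => γ t - q) c := by
  obtain ⟨l, hl, he, rfl⟩ := h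
  have h0 : ∀ t ∈ Icc 0 (2 * π), γ t - p ≠ 0 := fun t ht => by
    rw [← show exp (l t) = γ t - p from he t ht]; exact exp_ne_zero _
  obtain ⟨t0, ht0, hmin⟩ := isCompact_Icc.exists_isMinOn ⟨0, m0⟩
    (hγ.sub (continuousOn_const (c := p))).norm
  have hδ : 0 < ‖γ t0 - p‖ := norm_pos_iff.2 (h0 t0 ht0)
  filter_upwards [ball_mem_nhds p hδ] with q hq
  have hs : ∀ t ∈ Icc 0 (2 * π), 1 + (p - q) / (γ t - p) ∈ slitPlane := fun t ht => by
    apply mem_slitPlane_of_norm_lt_one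
    rw [norm_div, div_lt_one (norm_pos_iff.2 (h0 t ht))]
    have h1 : ‖γ t0 - p‖ ≤ ‖γ t - p‖ := hmin ht
    rw [mem_ball, dist_comm, dist_eq_norm] at hq
    exact hq.trans_le h1
  refine ⟨fun t => l t + log (1 + (p - q) / (γ t - p)), hl.add ?_, fun t ht => ?_, ?_⟩
  · exact ContinuousOn.clog (continuousOn_const.add (continuousOn_const.div
      (hγ.sub continuousOn_const) h0)) hs
  · beta_reduce
    rw [exp_add, exp_log (slitPlane_ne_zero (hs t ht)), show exp (l t) = γ t - p from he t ht]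
    have := h0 t ht
    field_simp
    ring
  · beta_reduce
    rw [hp]; ring

noncomputable def cir (r t : ℝ) : ℂ := r * exp (t * I)

theorem norm_cir {r : ℝ} (hr : 0 ≤ r) (t : ℝ) : ‖cir r t‖ = r := by
  simp [cir, norm_exp_ofReal_mul_I, abs_of_nonneg hr]

theorem cir_per (r t : ℝ) : cir r (t + 2 * π) = cir r t := by
  unfold cir
  push_cast
  rw [add_mul, exp_add, show (2 * (π : ℂ)) * I = 2 * π * I from rfl, exp_two_pi_mul_I, mul_one]

theorem cir_arg (y : ℂ) : cir ‖y‖ (arg y) = y := norm_mul_exp_arg_mul_I y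

theorem cir_cont : Continuous fun p : ℝ × ℝ => cir p.1 p.2 := by
  unfold cir; fun_prop

theorem cir_ne {r s t : ℝ} (hr : 0 < r) (h1 : s < t) (h2 : t < s + 2 * π) : cir r s ≠ cir r t := by
  intro h
  have hr' : (r : ℂ) ≠ 0 := by exact_mod_cast hr.ne'
  obtain ⟨n, hn⟩ := exp_eq_exp_iff_exists_int.1 (mul_left_cancel₀ hr' h).symm
  have := congrArg im hn
  simp at this
  have hπ := Real.pi_pos
  have a : (0 : ℝ) < n := by nlinarith
  have b : (n : ℝ) < 1 := by nlinarith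
  have a' : (0 : ℤ) < n := by exact_mod_cast a
  have b' : n < (1 : ℤ) := by exact_mod_cast b
  omega

def QQ (R : ℝ) : Set ((ℝ × ℝ) × (ℝ × ℝ)) :=
  {p | R ≤ p.1.1 ∧ p.1.1 ≤ p.2.1 ∧ (p.1.1 < p.2.1 ∨ (p.1.2 < p.2.2 ∧ p.2.2 < p.1.2 + 2 * π))}

def Q0 (R : ℝ) : Set ((ℝ × ℝ) × (ℝ × ℝ)) := {p | R ≤ p.1.1 ∧ p.1.1 < p.2.1}

theorem cvx {a b R x y : ℝ} (ha : 0 ≤ a) (hb : 0 ≤ b) (hab : a + b = 1) (h1 : R ≤ x) (h2 : R ≤ y) :
    R ≤ a * x + b * y := by
  have : R = a * R + b * R := by rw [← add_mul, hab, one_mul]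
  nlinarith [mul_le_mul_of_nonneg_left h1 ha, mul_le_mul_of_nonneg_left h2 hb]

theorem conv_Q0 (R : ℝ) : Convex ℝ (Q0 R) := by
  rintro p ⟨h1, h2⟩ q ⟨h3, h4⟩ a b ha hb hab
  simp only [Q0, mem_ofPred_eq, Prod.fst_add, Prod.smul_fst, Prod.snd_add, Prod.smul_snd,
    smul_eq_mul]
  refine ⟨cvx ha hb hab h1 h3, ?_⟩
  rcases ha.eq_or_lt with rfl | ha'
  · have : b = 1 := by linarith
    subst this; linarith
  · nlinarith

theorem conv_QQ (R : ℝ) : Convex ℝ (QQ R) := by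
  rintro p ⟨h1, h2, h3⟩ q ⟨h4, h5, h6⟩ a b ha hb hab
  rcases ha.eq_or_lt with rfl | ha'
  · have : b = 1 := by linarith
    subst this
    simpa [QQ] using And.intro h4 (And.intro h5 h6)
  rcases hb.eq_or_lt with rfl | hb'
  · have : a = 1 := by linarith
    subst this
    simpa [QQ] using And.intro h1 (And.intro h2 h3)
  simp only [QQ, mem_ofPred_eq, Prod.fst_add, Prod.smul_fst, Prod.snd_add, Prod.smul_snd,
    smul_eq_mul]
  refine ⟨cvx ha hb hab h1 h4, by nlinarith, ?_⟩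
  rcases h3 with h3 | h3
  · left; nlinarith
  rcases h6 with h6 | h6
  · left; nlinarith
  right
  refine ⟨by nlinarith [h3.1, h6.1], ?_⟩
  have : 2 * π = a * (2 * π) + b * (2 * π) := by rw [← add_mul, hab, one_mul]
  nlinarith [h3.2, h6.2]

theorem parity {R : ℝ} (hR : 0 < R) {f : ℂ → ℂ} (hf : ContinuousOn f {z | R ≤ ‖z‖})
    (hi : InjOn f {z | R ≤ ‖z‖}) : ∃ a b : ℂ, a ≠ b ∧
      (∀ ρ y, R ≤ ρ → ρ < ‖y‖ → Inc (fun t => f (cir ρ t) - f y) a) ∧
      (∀ ρ y, R ≤ ‖y‖ → ‖y‖ < ρ → Inc (fun t => f (cir ρ t) - f y) b) := by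
  have hπ := Real.pi_pos
  have hm : ∀ r t, R ≤ r → cir r t ∈ {z : ℂ | R ≤ ‖z‖} := fun r t h => by
    rw [mem_ofPred_eq, norm_cir (hR.le.trans h)]; exact h
  obtain ⟨L, hL, he⟩ := clog (conv_QQ R) ⟨((R, 0), (R + 1, 0)), le_rfl, by simp, by simp⟩
    (g := fun p => f (cir p.1.1 p.1.2) - f (cir p.2.1 p.2.2))
    ((hf.comp (cir_cont.comp continuous_fst).continuousOn fun p hp => hm _ _ hp.1).sub
      (hf.comp (cir_cont.comp continuous_snd).continuousOn fun p hp => hm _ _ (hp.1.trans hp.2.1)))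
    (fun p hp h => by
      have h1 := hi (hm _ _ hp.1) (hm _ _ (hp.1.trans hp.2.1)) (sub_eq_zero.1 h)
      have h2 := congrArg norm h1
      rw [norm_cir (hR.le.trans hp.1), norm_cir (hR.le.trans (hp.1.trans hp.2.1))] at h2
      rcases hp.2.2 with h3 | h3
      · exact h3.ne h2
      · rw [← h2] at h1
        exact cir_ne (hR.trans_le hp.1) h3.1 h3.2 h1)
  have h0 : Q0 R ⊆ QQ R := fun p hp => ⟨hp.1, hp.2.le, Or.inl hp.2⟩
  have shift : ∀ (S : Set ((ℝ × ℝ) × (ℝ × ℝ))) (u v : ℝ), Convex ℝ S → S ⊆ QQ R →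
      (∀ p ∈ S, ((p.1.1, p.1.2 + u), (p.2.1, p.2.2 + v)) ∈ QQ R) →
      (∀ r t, cir r (t + u) = cir r t) → (∀ r t, cir r (t + v) = cir r t) →
      (∀ p ∈ S, exp (L ((p.1.1, p.1.2 + u), (p.2.1, p.2.2 + v)) - L p) = 1) ∧
      ∀ p ∈ S, ∀ q ∈ S, L ((p.1.1, p.1.2 + u), (p.2.1, p.2.2 + v)) - L p =
        L ((q.1.1, q.1.2 + u), (q.2.1, q.2.2 + v)) - L q := by
    intro S u v hS hSQ hsh hu hv
    have e1 : ∀ p ∈ S, exp (L ((p.1.1, p.1.2 + u), (p.2.1, p.2.2 + v)) - L p) = 1 := by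
      intro p hp
      rw [exp_sub, he _ (hsh p hp)]
      simp only [hu, hv]
      rw [← show exp (L p) = f (cir p.1.1 p.1.2) - f (cir p.2.1 p.2.2) from he p (hSQ hp),
        div_self (exp_ne_zero _)]
    refine ⟨e1, fun p hp q hq => ?_⟩
    exact const (h := fun p => L ((p.1.1, p.1.2 + u), (p.2.1, p.2.2 + v)) - L p)
      hS.isPreconnected ((hL.comp (by fun_prop) hsh).sub (hL.mono hSQ)) e1 hp hq
  obtain ⟨a1, a2⟩ := shift (Q0 R) (2 * π) 0 (conv_Q0 R) h0 (fun p hp => h0 hp) cir_per (by simp)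
  obtain ⟨-, b2⟩ := shift (Q0 R) 0 (2 * π) (conv_Q0 R) h0 (fun p hp => h0 hp) (by simp) cir_per
  obtain ⟨-, d2⟩ := shift (QQ R) (2 * π) (2 * π) (conv_QQ R) Subset.rfl
    (fun p hp => ⟨hp.1, hp.2.1, hp.2.2.imp id fun h => ⟨by simpa using h.1, by simpa using h.2⟩⟩)
    cir_per cir_per
  have p0 : ∀ s t, ((R, s), (R + 1, t)) ∈ Q0 R := fun s t => ⟨le_rfl, by simp⟩
  have p1 : ∀ s, ((R, s), (R, s + π)) ∈ QQ R := fun s =>
    ⟨le_rfl, le_rfl, Or.inr ⟨by simpa using hπ, by simp only; linarith⟩⟩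
  refine ⟨L ((R, 0 + 2 * π), (R + 1, 0 + 0)) - L ((R, 0), (R + 1, 0)),
    L ((R, 0 + 0), (R + 1, 0 + 2 * π)) - L ((R, 0), (R + 1, 0)), fun hab => ?_,
    fun ρ y h1 h2 => ?_, fun ρ y h1 h2 => ?_⟩
  · have k1 : ∀ s ∈ (Set.univ : Set ℝ), exp (L ((R, s + π), (R, s + π + π)) -
        L ((R, s), (R, s + π)) - π * I) = 1 := by
      intro s _
      rw [exp_sub, exp_sub, he _ (p1 _), exp_pi_mul_I]
      have : s + π + π = s + 2 * π := by ring
      simp only [this, cir_per]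
      have h3 : exp (L ((R, s), (R, s + π))) = f (cir R s) - f (cir R (s + π)) := he _ (p1 _)
      have h4 := exp_ne_zero (L ((R, s), (R, s + π)))
      rw [h3] at h4 ⊢
      field_simp
      ring
    have c1 : Continuous fun s : ℝ => L ((R, s), (R, s + π)) :=
      hL.comp_continuous (by fun_prop) p1
    have k2 := const (h := fun s => L ((R, s + π), (R, s + π + π)) -
        L ((R, s), (R, s + π)) - π * I) isPreconnected_univ
      (((c1.comp (continuous_add_const π)).sub c1).sub continuous_const).continuousOn k1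
      (mem_univ 0) (mem_univ (0 + π))
    obtain ⟨n, hn⟩ := exp_eq_one_iff.1 (k1 0 (mem_univ _))
    obtain ⟨m, hm'⟩ := exp_eq_one_iff.1 (a1 _ (p0 0 0))
    have e1 := d2 _ (p1 0) _ (h0 (p0 0 0))
    have e2 := a2 _ (p0 0 (0 + 2 * π)) _ (p0 0 0)
    have r1 : (0 : ℝ) + π + π = 0 + 2 * π := by ring
    have r2 : (0 : ℝ) + π + π + π = 0 + π + 2 * π := by ring
    simp only [r2] at k2
    simp only [r1] at k2 hn
    simp only [add_zero] at *
    have e3 : (2 * m : ℂ) * (2 * π * I) = (2 * n + 1) * (2 * π * I) := by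
      linear_combination (-2) * hm' + 2 * hn - k2 - e1 - e2 + hab
    have e4 := mul_right_cancel₀ two_pi_I_ne_zero e3
    have e5 : 2 * m = 2 * n + 1 := by exact_mod_cast e4
    omega
  · have q : ∀ s, ((ρ, s), (‖y‖, arg y)) ∈ Q0 R := fun s => ⟨h1, h2⟩
    refine ⟨fun s => L ((ρ, s), (‖y‖, arg y)),
      (hL.comp_continuous (by fun_prop) fun s => h0 (q s)).continuousOn, fun t _ => ?_, ?_⟩
    · rw [he _ (h0 (q t))]; simp only [cir_arg]
    · simpa using a2 _ (q 0) _ (p0 0 0)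
  · have q : ∀ s, ((‖y‖, arg y), (ρ, s)) ∈ Q0 R := fun s => ⟨h1, h2⟩
    refine ⟨fun s => L ((‖y‖, arg y), (ρ, s)) + π * I,
      ((hL.comp_continuous (by fun_prop) fun s => h0 (q s)).add continuous_const).continuousOn,
      fun t _ => ?_, ?_⟩
    · beta_reduce
      rw [exp_add, he _ (h0 (q t)), exp_pi_mul_I]; simp only [cir_arg]; ring
    · simpa using b2 _ (q 0) _ (p0 0 0)

theorem rigid {X : Set ℂ} (hc : IsClosed X) (hX : IsPreconnected X) {R : ℝ} (hR : 0 < R)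
    (hO : {z : ℂ | R ≤ ‖z‖} ⊆ X) (f : X → ℂ) (hf : Continuous f) (hi : Function.Injective f) :
    IsEmbedding f := by
  classical
  obtain ⟨g, hg⟩ : ∃ g : ℂ → ℂ, ∀ z : X, g z = f z :=
    ⟨fun z ↦ if hz : z ∈ X then f ⟨z, hz⟩ else 0, by simp⟩
  have gc : ContinuousOn g X := by
    rw [continuousOn_iff_continuous_domRestrict]
    convert! hf
    ext z
    exact hg z
  have gi : InjOn g X := fun x hx y hy h => by
    have := hi (a₁ := ⟨x, hx⟩) (a₂ := ⟨y, hy⟩) (by rw [← hg, ← hg]; exact h)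
    exact congrArg Subtype.val this
  obtain ⟨a, b, hab, ha, hb⟩ := parity hR (gc.mono hO) (gi.mono hO)
  refine ⟨isInducing_iff_nhds.2 fun x => le_antisymm (hf.tendsto x).le_comap ?_, hi⟩
  obtain ⟨ρ, hρ1, hρ2⟩ : ∃ ρ : ℝ, R < ρ ∧ ‖(x : ℂ)‖ < ρ :=
    ⟨max R ‖(x : ℂ)‖ + 1, by linarith [le_max_left R ‖(x : ℂ)‖], by
      linarith [le_max_right R ‖(x : ℂ)‖]⟩
  have hρ : 0 ≤ ρ := (hR.trans hρ1).le
  have hm : ∀ t, cir ρ t ∈ X := fun t => hO (by rw [mem_ofPred_eq, norm_cir hρ]; exact hρ1.le)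
  have γc : ContinuousOn (fun t => g (cir ρ t)) (Icc 0 (2 * π)) :=
    (gc.comp_continuous (cir_cont.comp (Continuous.prodMk continuous_const continuous_id))
      hm).continuousOn
  have γp : g (cir ρ (2 * π)) = g (cir ρ 0) := by rw [← cir_per ρ 0, zero_add]
  have key : (‖(R : ℂ)‖ < ρ → Inc (fun t => g (cir ρ t) - g R) b) ↔
      (‖(x : ℂ)‖ < ρ → Inc (fun t => g (cir ρ t) - g x) b) := by
    refine hX.induction₂' (fun u v => (‖u‖ < ρ → Inc (fun t => g (cir ρ t) - g u) b) ↔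
      (‖v‖ < ρ → Inc (fun t => g (cir ρ t) - g v) b)) (fun u hu => ?_)
      (fun _ _ _ _ _ _ h h' => h.trans h') (hO (by simp [abs_of_pos hR])) x.2
    rcases lt_or_ge ‖u‖ ρ with h | h
    · obtain ⟨c, hc'⟩ := Inc.exists (γ := fun t => g (cir ρ t) - g u) (γc.sub continuousOn_const)
        (fun t _ h0 => by
          have := congrArg norm (gi (hm t) hu (sub_eq_zero.1 h0))
          rw [norm_cir hρ] at this
          exact h.ne this.symm)
      have e1 : ∀ᶠ v in 𝓝[X] u, ‖v‖ < ρ :=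
        nhdsWithin_le_nhds (continuous_norm.continuousAt.eventually_lt continuousAt_const h)
      filter_upwards [e1, (gc u hu).tendsto.eventually (Inc.near γc γp hc')] with v h1 h2
      have : (‖u‖ < ρ → Inc (fun t => g (cir ρ t) - g u) b) ↔
          (‖v‖ < ρ → Inc (fun t => g (cir ρ t) - g v) b) :=
        ⟨fun h3 _ => hc'.unique (h3 h) ▸ h2, fun h3 _ => h2.unique (h3 h1) ▸ hc'⟩
      exact ⟨this, this.symm⟩
    · have e1 : ∀ᶠ v in 𝓝[X] u, R < ‖v‖ :=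
        nhdsWithin_le_nhds (continuousAt_const.eventually_lt continuous_norm.continuousAt
          (hρ1.trans_le h))
      filter_upwards [e1] with v h1
      have t1 : ‖u‖ < ρ → Inc (fun t => g (cir ρ t) - g u) b := fun h2 => absurd h2 h.not_gt
      have t2 : ‖v‖ < ρ → Inc (fun t => g (cir ρ t) - g v) b := fun h2 => hb ρ v h1.le h2
      exact ⟨iff_of_true t1 t2, iff_of_true t2 t1⟩
  have hx : Inc (fun t => g (cir ρ t) - g x) b :=
    key.1 (fun h => hb ρ R (by simp [abs_of_pos hR]) h) hρ2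
  have hK : IsCompact ((↑) ⁻¹' closedBall (0 : ℂ) ρ : Set X) :=
    hc.isClosedEmbedding_subtypeVal.isCompact_preimage (isCompact_closedBall _ _)
  refine hK.le_nhds_of_unique_clusterPt ?_ fun y _ hy => ?_
  · rw [hg] at hx
    filter_upwards [tendsto_comap.eventually (Inc.near γc γp hx)] with y hy
    rw [mem_preimage, mem_closedBall_zero_iff]
    by_contra h
    rw [← hg] at hy
    exact hab ((ha ρ y hρ1.le (not_le.1 h)).unique hy)
  · have : ClusterPt (f y) (𝓝 (f x)) := hy.map hf.continuousAt tendsto_comap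
    exact hi (eq_of_nhds_neBot this)

end Pool.Agent.H.MP_fef6c2_gt
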