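import Pool.Agent.H.MP_fef6c2_gt.A

namespace Pool.Agent.H.MP_fef6c2_gt
open Set Complex Topology Filter Metric
open scoped Real

theorem bump {U : Set ℂ} {p q : ℂ} {r : ℝ} (hU : ball p r ⊆ U) (h : dist q p < r) :
    ∃ g : ℂ → ℂ, Continuous g ∧ Function.Injective g ∧ (∀ z ∉ U, g z = z) ∧ g p = q := by
  have hr : 0 < r := dist_nonneg.trans_lt h
  refine ⟨fun z => z + ((max 0 (1 - dist z p / r) : ℝ) : ℂ) * (q - p), by fun_prop,
    fun z w hzw => ?_, fun z hz => ?_, by simp⟩
  · by_contra hne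
    have h1 : z - w = (((max 0 (1 - dist w p / r) - max 0 (1 - dist z p / r) : ℝ)) : ℂ) * (q - p) := by
      push_cast
      linear_combination hzw
    have h2 : |max 0 (1 - dist w p / r) - max 0 (1 - dist z p / r)| ≤ dist z w / r := by
      refine (abs_max_sub_max_le_max _ _ _ _).trans (max_le (by simp; positivity) ?_)
      rw [show 1 - dist w p / r - (1 - dist z p / r) = (dist z p - dist w p) / r by ring,
        abs_div, abs_of_pos hr]
      exact div_le_div_of_nonneg_right (abs_dist_sub_le z w p) hr.le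
    have h3 := congrArg norm h1
    rw [norm_mul, norm_real, Real.norm_eq_abs, ← dist_eq_norm, ← dist_eq_norm] at h3
    have h4 : 0 < dist z w := dist_pos.2 hne
    have h5 : dist z w ≤ dist z w / r * dist q p :=
      h3.trans_le (mul_le_mul_of_nonneg_right h2 dist_nonneg)
    have h6 : dist z w / r * dist q p < dist z w / r * r :=
      mul_lt_mul_of_pos_left h (div_pos h4 hr)
    rw [div_mul_cancel₀ _ hr.ne'] at h6
    linarith
  · have h1 : r ≤ dist z p := not_lt.1 fun h => hz (hU h)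
    have h2 : 1 - dist z p / r ≤ 0 := by
      rw [sub_nonpos, le_div_iff₀ hr]; linarith
    simp [max_eq_left h2]

theorem move {U : Set ℂ} (hU : IsOpen U) (hc : IsPreconnected U) {p q : ℂ} (hp : p ∈ U)
    (hq : q ∈ U) :
    ∃ g : ℂ → ℂ, Continuous g ∧ Function.Injective g ∧ (∀ z ∉ U, g z = z) ∧ g p = q := by
  refine hc.induction₂' (fun p q => ∃ g : ℂ → ℂ, Continuous g ∧ Function.Injective g ∧
    (∀ z ∉ U, g z = z) ∧ g p = q) (fun u hu => ?_) ?_ hp hq
  · obtain ⟨r, hr, hb⟩ := Metric.isOpen_iff.1 hU u hu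
    filter_upwards [nhdsWithin_le_nhds (ball_mem_nhds u (half_pos hr))] with v hv
    refine ⟨bump hb ((mem_ball.1 hv).trans (half_lt_self hr)),
      bump (r := r / 2) (fun z hz => hb ?_) (by rw [dist_comm]; exact hv)⟩
    rw [mem_ball] at *
    linarith [dist_triangle z v u]
  · rintro x y z - - - ⟨g, g1, g2, g3, g4⟩ ⟨k, k1, k2, k3, k4⟩
    exact ⟨k ∘ g, k1.comp g1, k2.comp g2, fun w hw => by simp [g3 w hw, k3 w hw], by simp [g4, k4]⟩

theorem nonrigid {X W : Set ℂ} (hW : IsOpen W) (hWc : IsPreconnected W) (hd : Disjoint X W)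
    {b : ℂ} (hb : b ∈ X) (hbW : b ∈ closure W) (V : ℕ → Set ℂ) (hV : ∀ n, IsOpen (V n))
    (hVc : ∀ n, IsPreconnected (V n)) (hVa : Antitone V) (hVW : ∀ n, (W ∩ V n).Nonempty)
    (hVX : ∀ n, (X ∩ V n).Nonempty) (hl : ∀ x ∈ X, ∃ n, x ∉ closure (V n)) :
    ∃ f : X → ℂ, Continuous f ∧ Function.Injective f ∧ ¬ IsEmbedding f := by
  let S := {s : ℕ × (ℂ → ℂ) // Continuous s.2 ∧ Function.Injective s.2 ∧ s.2 b = b ∧ b ∉ V s.1}
  have step : ∀ s : S, ∃ s' : S, s.1.1 < s'.1.1 ∧ (∀ z ∈ X, z ∉ V s.1.1 → s'.1.2 z = s.1.2 z) ∧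
      ∃ x ∈ X ∩ V s.1.1, x ∉ V s'.1.1 ∧ dist (s'.1.2 x) b < 1 / ((s.1.1 : ℝ) + 1) := by
    rintro ⟨⟨n, F⟩, h1, h2, h3, h4⟩
    obtain ⟨x, hx⟩ := hVX n
    obtain ⟨m, hm⟩ := hl x hx.1
    have ho : IsOpen (F ⁻¹' ball b (1 / ((n : ℝ) + 1))) := isOpen_ball.preimage h1
    obtain ⟨d, hd1, hd2⟩ := mem_closure_iff.1 hbW _ ho (by
      rw [mem_preimage, show F b = b from h3]; exact mem_ball_self Nat.one_div_pos_of_nat)
    obtain ⟨g, g1, g2, g3, g4⟩ := move (hW.union (hV n)) (hWc.union' (hVW n) (hVc n))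
      (Or.inr hx.2) (Or.inl hd2)
    have g5 : ∀ z ∈ X, z ∉ V n → g z = z := fun z hz hz' =>
      g3 z fun h => h.elim (disjoint_left.1 hd hz) hz'
    refine ⟨⟨(max m n + 1, F ∘ g), (show Continuous F from h1).comp g1,
      (show Function.Injective F from h2).comp g2, ?_,
      fun h => h4 (hVa (by simp only; omega) h)⟩, by simp only; omega,
      fun z hz hz' => by simp [g5 z hz hz'], x, hx,
      fun h => hm (subset_closure (hVa (by simp only; omega) h)), ?_⟩
    · simp only [Function.comp_apply, g5 b hb h4]; exact h3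
    · simp only [Function.comp_apply, g4]; exact hd1
  choose nx h1 h2 x h3 h4 h5 using step
  obtain ⟨n0, hn0⟩ := hl b hb
  let s : ℕ → S := fun k => nx^[k] ⟨(n0, id), continuous_id, Function.injective_id, rfl,
    fun h => hn0 (subset_closure h)⟩
  have hs : ∀ k, s (k + 1) = nx (s k) := fun k => Function.iterate_succ_apply' _ _ _
  have hm : StrictMono fun k => (s k).1.1 := strictMono_nat_of_lt_succ fun k => by
    rw [hs]; exact h1 _
  have hk : ∀ k, k ≤ (s k).1.1 := fun k => hm.id_le k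
  have stab : ∀ z ∈ X, ∀ k, z ∉ V (s k).1.1 → ∀ m, k ≤ m → (s m).1.2 z = (s k).1.2 z := by
    intro z hz k hk m hm'
    induction m, hm' using Nat.le_induction with
    | base => rfl
    | succ m hkm ih =>
      rw [hs, h2 _ z hz (fun h => hk (hVa (hm.monotone hkm) h)), ih]
  choose! N hN using hl
  have hN' : ∀ z ∈ X, z ∉ V (s (N z)).1.1 := fun z hz h =>
    hN z hz (subset_closure (hVa (hk _) h))
  have val : ∀ z ∈ X, ∀ k, z ∉ V (s k).1.1 → (s (N z)).1.2 z = (s k).1.2 z := fun z hz k hk => by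
    rw [← stab z hz k hk _ (le_max_left k (N z)), stab z hz _ (hN' z hz) _ (le_max_right _ _)]
  refine ⟨fun z => (s (N z)).1.2 z, continuous_iff_continuousAt.2 fun z => ?_,
    fun z w h => ?_, fun he => ?_⟩
  · refine ((s (N z)).2.1.comp continuous_subtype_val).continuousAt.congr ?_
    have : ((↑) ⁻¹' (closure (V (N z)))ᶜ : Set X) ∈ 𝓝 z :=
      (isClosed_closure.isOpen_compl.preimage continuous_subtype_val).mem_nhds (hN z z.2)
    filter_upwards [this] with w hw
    exact (val w w.2 _ fun h => hw (subset_closure (hVa (hk _) h))).symm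
  · have e1 := stab z z.2 _ (hN' z z.2) _ (le_max_left (N z) (N w))
    have e2 := stab w w.2 _ (hN' w w.2) _ (le_max_right (N z) (N w))
    exact Subtype.ext ((s _).2.2.1 (e1.trans (Eq.trans h e2.symm)))
  · have t1 : Tendsto (fun k => (⟨x (s k), (h3 _).1⟩ : X)) atTop (𝓝 ⟨b, hb⟩) := by
      rw [he.tendsto_nhds_iff]
      simp only [Function.comp_def]
      rw [(s _).2.2.2.1, tendsto_iff_dist_tendsto_zero]
      refine squeeze_zero (fun _ => dist_nonneg) (fun k => ?_)
        tendsto_one_div_add_atTop_nhds_zero_nat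
      rw [val _ (h3 _).1 (k + 1) (by rw [hs]; exact h4 _), hs]
      refine (h5 _).le.trans (one_div_le_one_div_of_le (by positivity) ?_)
      have : (k : ℝ) ≤ (s k).1.1 := by exact_mod_cast hk k
      linarith
    have t2 : Tendsto (fun k => x (s k)) atTop (𝓝 b) := (continuous_subtype_val.tendsto _).comp t1
    refine hn0 (mem_closure_of_tendsto t2 (Eventually.of_forall fun k => hVa ?_ (h3 _).2))
    exact hm.monotone (Nat.zero_le k)

theorem out_conn {R : ℝ} (hR : 0 ≤ R) : IsPreconnected {z : ℂ | R < ‖z‖} := by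
  have : {z : ℂ | R < ‖z‖} = (fun p : ℝ × ℝ => cir p.1 p.2) '' (Ioi R ×ˢ Set.univ) := by
    ext z
    refine ⟨fun h => ⟨(‖z‖, arg z), ⟨h, mem_univ _⟩, cir_arg z⟩, ?_⟩
    rintro ⟨p, hp, rfl⟩
    rw [mem_ofPred_eq, norm_cir (hR.trans (le_of_lt hp.1))]; exact hp.1
  rw [this]
  exact (isPreconnected_Ioi.prod isPreconnected_univ).image _ cir_cont.continuousOn

theorem closed_cobdd {X : Set ℂ} [LocallyCompactSpace X] (hc : IsPreconnected Xᶜ)
    (hK : ¬ IsCompact X) (hO : ¬ IsOpen X)
    (hr : ∀ f : X → ℂ, Continuous f → Function.Injective f → IsEmbedding f) :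
    IsClosed X ∧ Bornology.IsBounded Xᶜ := by
  have loc : ∀ x ∈ X, ∃ r > 0, ball x r ∩ closure X ⊆ X := by
    intro x hx
    obtain ⟨K, hK, hKx⟩ := exists_compact_mem_nhds (⟨x, hx⟩ : X)
    obtain ⟨t, ht, htK⟩ := (mem_nhds_subtype _ _ _).1 hKx
    obtain ⟨r, hr, hb⟩ := Metric.mem_nhds_iff.1 ht
    refine ⟨r, hr, fun z hz => ?_⟩
    have h1 : ball x r ∩ X ⊆ (↑) '' K := fun w hw => ⟨⟨w, hw.2⟩, htK (hb hw.1), rfl⟩
    obtain ⟨w, -, rfl⟩ := closure_minimal h1 (hK.image continuous_subtype_val).isClosed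
      (isOpen_ball.inter_closure hz)
    exact w.2
  obtain ⟨x, hx, hxn⟩ : ∃ x ∈ X, ∀ r > 0, ¬ ball x r ⊆ X := by
    by_contra h
    push Not at h
    exact hO (Metric.isOpen_iff.2 h)
  obtain ⟨r, hr0, hrX⟩ := loc x hx
  obtain ⟨c, hc1, hc2⟩ := not_subset.1 (hxn (r / 2) (half_pos hr0))
  have hc3 : c ∈ (closure X)ᶜ := fun h => hc2 (hrX ⟨ball_subset_ball (half_le_self hr0.le) hc1, h⟩)
  obtain ⟨b, hb1, hb2⟩ := isClosed_closure.exists_infDist_eq_dist ⟨x, subset_closure hx⟩ c
  have hb3 : dist c b ≤ dist c x := hb2 ▸ infDist_le_dist_of_mem (subset_closure hx)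
  have hb : b ∈ X := hrX ⟨by
    rw [mem_ball] at *
    linarith [dist_triangle b c x, dist_comm b c], hb1⟩
  let W := connectedComponentIn (closure X)ᶜ c
  have hW : IsOpen W := isClosed_closure.isOpen_compl.connectedComponentIn
  have hWc : IsPreconnected W := isPreconnected_connectedComponentIn
  have hWs : W ⊆ (closure X)ᶜ := connectedComponentIn_subset _ _
  have hd : Disjoint X W := disjoint_left.2 fun z hz h => hWs h (subset_closure hz)
  have hcb : 0 < dist c b := dist_pos.2 fun h => hc3 (h ▸ hb1)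
  have hbW : b ∈ closure W := by
    have h1 : ball c (dist c b) ⊆ W := isPreconnected_ball.subset_connectedComponentIn
      (mem_ball_self hcb) fun z hz h => by
        have := infDist_le_dist_of_mem (x := c) h
        rw [mem_ball, dist_comm] at hz
        linarith
    refine closure_mono h1 ?_
    rw [closure_ball _ hcb.ne', mem_closedBall, dist_comm]
  have no : ¬ ∃ f : X → ℂ, Continuous f ∧ Function.Injective f ∧ ¬ IsEmbedding f :=
    fun ⟨f, h1, h2, h3⟩ => h3 (hr f h1 h2)
  have hE : ∀ e ∈ closure W, e ∈ closure X → e ∈ X := by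
    intro e he1 he2
    by_contra he
    refine no (nonrigid hW hWc hd hb hbW (fun n => ball e (1 / ((n : ℝ) + 1)))
      (fun _ => isOpen_ball) (fun _ => isPreconnected_ball)
      (fun m n h => ball_subset_ball (Nat.one_div_le_one_div h)) (fun n => ?_) (fun n => ?_)
      fun y hy => ?_)
    · rw [inter_comm]
      exact mem_closure_iff.1 he1 _ isOpen_ball (mem_ball_self Nat.one_div_pos_of_nat)
    · rw [inter_comm]
      exact mem_closure_iff.1 he2 _ isOpen_ball (mem_ball_self Nat.one_div_pos_of_nat)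
    · obtain ⟨n, hn⟩ := exists_nat_one_div_lt (dist_pos.2 fun h : y = e => he (h ▸ hy))
      exact ⟨n, fun h => (mem_closedBall.1 (closure_ball_subset_closedBall h)).not_gt hn⟩
  have hXW : Xᶜ ⊆ W := by
    refine hc.subset_of_closure_inter_subset hW ⟨c, hc2, mem_connectedComponentIn hc3⟩ ?_
    rintro e ⟨he1, he2⟩
    have he3 : e ∈ (closure X)ᶜ := fun h => he2 (hE e he1 h)
    obtain ⟨w, hw1, hw2⟩ := mem_closure_iff.1 he1 _
      (isClosed_closure.isOpen_compl.connectedComponentIn (x := e)) (mem_connectedComponentIn he3)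
    have h1 := connectedComponentIn_eq hw1
    have h2 := connectedComponentIn_eq hw2
    change e ∈ connectedComponentIn (closure X)ᶜ c
    rw [h2, ← h1]
    exact mem_connectedComponentIn he3
  have hcl : IsClosed X := by
    rw [← closure_subset_iff_isClosed]
    intro z hz
    by_contra h
    exact hWs (hXW h) hz
  refine ⟨hcl, ?_⟩
  by_contra hu
  have unb : ∀ Y : Set ℂ, ¬ Bornology.IsBounded Y → ∀ n : ℕ, (Y ∩ {z | (n : ℝ) < ‖z‖}).Nonempty := by
    intro Y hY n
    by_contra h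
    refine hY (isBounded_iff_forall_norm_le.2 ⟨n, fun z hz => not_lt.1 fun h' => h ⟨z, hz, h'⟩⟩)
  refine no (nonrigid hW hWc hd hb hbW (fun n => {z | (n : ℝ) < ‖z‖})
    (fun _ => isOpen_lt continuous_const continuous_norm) (fun n => out_conn n.cast_nonneg)
    (fun m n h z (hz : (n : ℝ) < ‖z‖) => show (m : ℝ) < ‖z‖ from
      lt_of_le_of_lt (Nat.cast_le.2 h) hz)
    (unb W fun h => hu (h.subset hXW))
    (unb X fun h => hK (isCompact_of_isClosed_isBounded hcl h)) fun y _ => ?_)
  obtain ⟨n, hn⟩ := exists_nat_gt ‖y‖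
  refine ⟨n, fun h => ?_⟩
  have : closure {z : ℂ | (n : ℝ) < ‖z‖} ⊆ {z | (n : ℝ) ≤ ‖z‖} :=
    closure_minimal (fun z (hz : (n : ℝ) < ‖z‖) => show (n : ℝ) ≤ ‖z‖ from hz.le)
      (isClosed_le continuous_const continuous_norm)
  exact hn.not_ge (this h)

theorem conn {X : Set ℂ} (hc : IsClosed X) (hb : Bornology.IsBounded Xᶜ) (hne : Xᶜ.Nonempty)
    (hr : ∀ f : X → ℂ, Continuous f → Function.Injective f → IsEmbedding f) :
    IsPreconnected X := by
  classical
  obtain ⟨R, hR, hRX⟩ := hb.subset_closedBall_lt 0 0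
  have hO : {z : ℂ | R < ‖z‖} ⊆ X := fun z hz => by
    by_contra h
    exact (mem_closedBall_zero_iff.1 (hRX h)).not_gt hz
  obtain ⟨p, hp⟩ := hne
  have main : ∀ A K : Set ℂ, IsClosed A → IsClosed K → X = A ∪ K → Disjoint A K →
      {z : ℂ | R < ‖z‖} ⊆ A → K.Nonempty → False := by
    intro A K hA hK hX hd hOA hKn
    have hKc : IsCompact K := (isCompact_closedBall (0 : ℂ) R).of_isClosed_subset hK fun z hz =>
      mem_closedBall_zero_iff.2 (not_lt.1 fun h => disjoint_left.1 hd (hOA h) hz)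
    obtain ⟨k, hk, hmax⟩ := hKc.exists_isMaxOn hKn
      (f := fun z => ‖z - p‖) (by fun_prop)
    have n0 : ∀ z ∈ X, 0 < ‖z - p‖ := fun z hz =>
      norm_pos_iff.2 (sub_ne_zero.2 fun h => hp (h ▸ hz))
    have hkX : k ∈ X := hX ▸ Or.inr hk
    have hM := n0 k hkX
    let φ : ℂ → ℂ := fun z => (((‖z - p‖ + 1) / ‖z - p‖ ^ 2 : ℝ) : ℂ) * (z - p)
    let ψ : ℂ → ℂ := fun z => ((‖k - p‖⁻¹ : ℝ) : ℂ) * (z - p)
    have nφ : ∀ z ∈ X, ‖φ z‖ = 1 + ‖z - p‖⁻¹ := fun z hz => by
      have := n0 z hz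
      simp only [φ]
      rw [norm_mul, norm_real, Real.norm_eq_abs, abs_of_pos (by positivity)]
      field_simp
    have nψ : ∀ z ∈ K, ‖ψ z‖ ≤ 1 := fun z hz => by
      simp only [ψ]
      rw [norm_mul, norm_real, Real.norm_eq_abs, abs_of_pos (by positivity), inv_mul_le_one₀ hM]
      exact hmax hz
    have hAK : ∀ z : X, z.1 ∉ A → z.1 ∈ K := fun z h => (hX ▸ z.2 : z.1 ∈ A ∪ K).resolve_left h
    have clo : IsClopen ((↑) ⁻¹' A : Set X) := by
      refine ⟨hA.preimage continuous_subtype_val, ?_⟩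
      have : ((↑) ⁻¹' A : Set X) = ((↑) ⁻¹' K)ᶜ := by
        ext z
        exact ⟨fun h h' => disjoint_left.1 hd h h', fun h => by_contra fun h' => h (hAK z h')⟩
      rw [this]
      exact (hK.preimage continuous_subtype_val).isOpen_compl
    have he := hr (fun z => if z.1 ∈ A then φ z else ψ z)
      (Continuous.if (p := fun z : X => z.1 ∈ A)
        (fun a ha => absurd (show a ∈ frontier ((↑) ⁻¹' A : Set X) from ha)
        (by simp [clo.frontier_eq]))
        (Continuous.mul (continuous_ofReal.comp (Continuous.div (by fun_prop) (by fun_prop)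
          fun z => pow_ne_zero _ (n0 z z.2).ne')) (by fun_prop)) (by fun_prop))
      (fun z w h => by
        have a1 := nφ z z.2
        have a2 := nφ w w.2
        have a3 := inv_pos.2 (n0 z z.2)
        have a4 := inv_pos.2 (n0 w w.2)
        beta_reduce at h
        split_ifs at h with h1 h2 h2
        · have e : ‖(z : ℂ) - p‖ = ‖(w : ℂ) - p‖ := by
            rw [h, a2] at a1
            exact inv_injective (add_left_cancel a1).symm
          simp only [φ, e] at h
          have := n0 w w.2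
          have h3 := mul_left_cancel₀ (ofReal_ne_zero.2 (by positivity)) h
          exact Subtype.ext (sub_left_injective h3)
        · have := nψ w (hAK w h2); rw [← h] at this; linarith
        · have := nψ z (hAK z h1); rw [h] at this; linarith
        · have h3 := mul_left_cancel₀ (ofReal_ne_zero.2 (by positivity)) h
          exact Subtype.ext (sub_left_injective h3))
    let z : ℕ → ℂ := fun n => p + (((n : ℝ) + (R + ‖p‖ + 1) : ℝ) : ℂ) * ψ k
    have nk : ‖ψ k‖ = 1 := by
      simp only [ψ]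
      rw [norm_mul, norm_real, Real.norm_eq_abs, abs_of_pos (by positivity), inv_mul_cancel₀ hM.ne']
    have nz : ∀ n, ‖z n - p‖ = n + (R + ‖p‖ + 1) := fun n => by
      simp only [z]
      rw [add_sub_cancel_left, norm_mul, nk, mul_one, norm_real, Real.norm_eq_abs,
        abs_of_pos (by positivity)]
    have zA : ∀ n, z n ∈ A := fun n => hOA (by
      have h1 := norm_sub_le (z n) p
      have h2 : (0 : ℝ) ≤ n := n.cast_nonneg
      rw [nz] at h1
      rw [mem_ofPred_eq]; linarith)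
    have t1 : Tendsto (fun n => (⟨z n, hX ▸ Or.inl (zA n)⟩ : X)) atTop (𝓝 ⟨k, hkX⟩) := by
      rw [he.tendsto_nhds_iff]
      have hkA : k ∉ A := fun h => disjoint_left.1 hd h hk
      simp only [Function.comp_def, zA, hkA, if_true, if_false]
      have e : ∀ n, φ (z n) = ((1 + ((n : ℝ) + (R + ‖p‖ + 1))⁻¹ : ℝ) : ℂ) * ψ k := fun n => by
        simp only [φ, nz]
        simp only [z, add_sub_cancel_left]
        rw [← mul_assoc, ← ofReal_mul]
        congr 2
        field_simp
      simp only [e]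
      have t : Tendsto (fun n : ℕ => 1 + ((n : ℝ) + (R + ‖p‖ + 1))⁻¹) atTop (𝓝 (1 + 0)) :=
        (tendsto_inv_atTop_zero.comp
          (tendsto_atTop_add_const_right _ _ tendsto_natCast_atTop_atTop)).const_add 1
      simpa using ((continuous_ofReal.tendsto _).comp t).mul_const (ψ k)
    exact disjoint_left.1 hd
      (hA.mem_of_tendsto ((continuous_subtype_val.tendsto _).comp t1) (Eventually.of_forall zA)) hk
  rw [isPreconnected_iff_subset_of_fully_disjoint_closed hc]
  intro u v hu hv huv hd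
  by_contra h
  rw [not_or] at h
  obtain ⟨a, ha1, ha2⟩ := not_subset.1 h.1
  obtain ⟨b, hb1, hb2⟩ := not_subset.1 h.2
  have hX : X = X ∩ u ∪ X ∩ v := by rw [← inter_union_distrib_left, inter_eq_left.2 huv]
  have hd' : Disjoint (X ∩ u) (X ∩ v) := hd.mono inter_subset_right inter_subset_right
  rcases isPreconnected_iff_subset_of_disjoint_closed.1 (out_conn hR.le) u v hu hv (hO.trans huv)
    (by rw [hd.inter_eq, inter_empty]) with h1 | h1
  · exact main _ _ (hc.inter hu) (hc.inter hv) hX hd' (subset_inter hO h1)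
      ⟨a, ha1, (huv ha1).resolve_left ha2⟩
  · exact main _ _ (hc.inter hv) (hc.inter hu) (hX.trans (union_comm _ _)) hd'.symm
      (subset_inter hO h1) ⟨b, hb1, (huv hb1).resolve_right hb2⟩

end Pool.Agent.H.MP_fef6c2_gt
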